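import Pool.Agent.W_MP_56bea1_an.Equil

namespace Pool.Agent.Results.MP_56bea1_an.InverseRowSums

open Matrix Pool.Agent.W_MP_56bea1_an

/-- The repulsion matrix `A i j = 1 / (r + |z i - z j|)` of points of the Euclidean plane. -/
noncomputable def repulsionMatrix (r : ℝ) {n : ℕ} (z : Fin n → EuclideanSpace ℝ (Fin 2)) :
    Matrix (Fin n) (Fin n) ℝ :=
  Matrix.of fun i j => 1 / (r + dist (z i) (z j))

theorem result (r : ℝ) (hr : 0 < r) (n : ℕ) (z : Fin n → EuclideanSpace ℝ (Fin 2))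
    (hsep : ∀ i j, i ≠ j → 2 * r ≤ dist (z i) (z j)) :
    IsUnit (repulsionMatrix r z).det ∧
      ∀ i, 0 < ((repulsionMatrix r z)⁻¹ *ᵥ (fun _ => (1 : ℝ))) i := by
  classical
  rcases isEmpty_or_nonempty (Fin n) with hn | hn
  · exact ⟨by rw [Matrix.det_isEmpty]; exact isUnit_one, fun i => (hn.false i).elim⟩
  -- move to the complex plane and rescale
  set φ : EuclideanSpace ℝ (Fin 2) ≃ₗᵢ[ℝ] ℂ := Complex.orthonormalBasisOneI.repr.symm with hφ
  set w : Fin n → ℂ := fun i => ((r⁻¹ : ℝ) : ℂ) * φ (z i) with hw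
  have hdist : ∀ i j, ‖w i - w j‖ = r⁻¹ * dist (z i) (z j) := by
    intro i j
    simp only [hw]
    rw [← mul_sub, norm_mul, Complex.norm_real, Real.norm_eq_abs, abs_of_pos (inv_pos.2 hr),
      ← dist_eq_norm, φ.dist_map]
  have hws : ∀ i j, i ≠ j → 2 ≤ ‖w i - w j‖ := by
    intro i j hij
    rw [hdist]
    have := hsep i j hij
    rw [inv_mul_eq_div, le_div_iff₀ hr]
    exact this
  have hA : repulsionMatrix r z = r⁻¹ • K w := by
    ext i j
    simp only [repulsionMatrix, K, Matrix.of_apply, Matrix.smul_apply, smul_eq_mul]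
    rw [hdist]
    have hd : 0 ≤ dist (z i) (z j) := dist_nonneg
    have h1 : r + dist (z i) (z j) ≠ 0 := by positivity
    have h2 : 1 + r⁻¹ * dist (z i) (z j) ≠ 0 := by positivity
    field_simp
  have hdet : (repulsionMatrix r z).det ≠ 0 := by
    intro h0
    obtain ⟨v, hv, hv0⟩ := (Matrix.exists_mulVec_eq_zero_iff).2 h0
    apply hv
    apply K_ker w hws v
    rw [hA, smul_mulVec] at hv0
    have := congrArg (fun u => r • u) hv0
    simpa [smul_smul, mul_inv_cancel₀ hr.ne'] using this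
  have hunit : IsUnit (repulsionMatrix r z).det := isUnit_iff_ne_zero.2 hdet
  refine ⟨hunit, ?_⟩
  obtain ⟨x, hx, hKx⟩ := exists_equil w hws
  have hAx : repulsionMatrix r z *ᵥ (r • x) = fun _ => (1 : ℝ) := by
    rw [hA, smul_mulVec, mulVec_smul, hKx, smul_smul, inv_mul_cancel₀ hr.ne', one_smul]
    rfl
  intro i
  rw [← hAx, mulVec_mulVec, Matrix.nonsing_inv_mul _ hunit, one_mulVec]
  exact mul_pos hr (hx i)

end Pool.Agent.Results.MP_56bea1_an.InverseRowSums
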